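import Mathlib
import Pool.Agent.helper60.PR.Assembly

set_option autoImplicit false

/-!
# MP_bc45ee_lc: the relation `R_κ(ℵ₁)` can only hold because of non-approachable points
-/

open Cardinal Set Order

namespace Pool.Agent.Results.MP_bc45ee_lc.HomogeneousNonApproachable

universe u

/-- The set `κ` (of the ordinals less than the initial ordinal of `κ`). -/
abbrev Pt (κ : Cardinal.{u}) : Type u := κ.ord.ToType

/-- A point `γ` is approachable with respect to the sequence `a` of sets indexed by the points: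
there is a cofinal subset `A` of `γ` such that every proper initial segment `A ∩ β` (`β < γ`) is
countable and equals `a ξ` for some `ξ < γ`. -/
def Approachable {L : Type u} [LinearOrder L] (a : L → Set L) (γ : L) : Prop :=
  ∃ A ⊆ Iio γ, (∀ β < γ, ∃ x ∈ A, β < x) ∧ (∀ β < γ, (A ∩ Iio β).Countable) ∧
    ∀ β < γ, ∃ ξ < γ, a ξ = A ∩ Iio β

/-- Let `κ` be an uncountable strong limit cardinal of countable cofinality with `2 ^ κ = κ⁺`
(under GCH: any uncountable cardinal of countable cofinality). For every sequence `a` of length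
`κ⁺` of subsets of `κ⁺` and every club `E ⊆ κ⁺` there is a partition `Δ` of `κ × κ⁺` such that no
`A × B` with `|A| = κ`, `|B| = κ⁺` has colour `0`, and such that whenever `A × B` has colour `1`,
`|A| = κ` and `|B| = ℵ₁`, then `B` is cofinal, with countable proper initial segments, in a point
`γ ∈ E` of cofinality `ℵ₁` which is not approachable with respect to `a`. -/
theorem result (κ : Cardinal.{u}) (h0 : ℵ₀ < κ) (hs : κ.IsStrongLimit)
    (hcof : κ.ord.cof = ℵ₀) (hpow : (2 : Cardinal.{u}) ^ κ = succ κ)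
    (a : Pt (succ κ) → Set (Pt (succ κ))) (E : Set (Pt (succ κ))) (hE : IsClub E) :
    ∃ Δ : Pt κ → Pt (succ κ) → Prop,
      (¬ ∃ (A : Set (Pt κ)) (B : Set (Pt (succ κ))), #A = κ ∧ #B = succ κ ∧
        ∀ x ∈ A, ∀ y ∈ B, ¬ Δ x y) ∧
      ∀ (A : Set (Pt κ)) (B : Set (Pt (succ κ))), #A = κ → #B = ℵ₁ →
        (∀ x ∈ A, ∀ y ∈ B, Δ x y) →
        ∃ γ ∈ E, Order.cof (Iio γ) = ℵ₁ ∧ ¬ Approachable a γ ∧
          (∀ β < γ, ∃ y ∈ B, β < y ∧ y < γ) ∧ ∀ β < γ, (B ∩ Iio β).Countable := by
  have hreg : (succ κ).IsRegular := isRegular_succ h0.le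
  obtain ⟨Δ, h1, h2⟩ := helper60.PR.exists_partition (K := Pt κ) (L := Pt (succ κ)) h0 hs hcof
    hpow (mk_ord_toType κ) (mk_ord_toType _) (fun α => lt_succ_iff.1 (mk_Iio_toType_ord_lt α))
    (by rw [Ordinal.cof_toType, hreg.cof_ord]) a hE
  refine ⟨Δ, ?_, fun A B hA hB hAB => ?_⟩
  · rintro ⟨A, B, hA, hB, hAB⟩
    obtain ⟨x, hx, y, hy, hxy⟩ := h1 A B hA hB
    exact hAB x hx y hy hxy
  · obtain ⟨γ, hγ, h3, h4, h5, h6⟩ := h2 A B hA hB hAB
    refine ⟨γ, hγ, h3, h4, fun β hβ => ?_, h6⟩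
    by_contra hcon
    push Not at hcon
    refine h5 (((h6 β hβ).union (countable_singleton β)).mono ?_)
    rintro y ⟨hy, hyγ⟩
    rcases lt_trichotomy y β with h | h | h
    · exact Or.inl ⟨hy, h⟩
    · exact Or.inr h
    · exact absurd hyγ (not_lt.2 (hcon y hy h))

end Pool.Agent.Results.MP_bc45ee_lc.HomogeneousNonApproachable
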