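import Mathlib
import Pool.Agent.helper60.POS.FinalP

set_option autoImplicit false

/-!
# MP_bc45ee_lc: `R_κ(ℵ₁)` at `κ = ℵ_ω` is independent of ZFC + GCH

The proof idea of the positive half is due to helper13. The model is obtained from a model of GCH
and of Chang's conjecture `(ℵ_{ω+1}, ℵ_ω) ↠ (ℵ₁, ℵ₀)` (consistent relative to large cardinals by
Levinski, Magidor and Shelah) by forcing with a product `P × R`: here `P` is a finite support
iteration of length `ω₂` of posets adding pseudo-intersections, and `R` is the set of countable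
partial maps from `ω₁` to `ω₂`, which restores CH.
-/

namespace Pool.Agent.Results.MP_bc45ee_lc.Independence

open Cardinal Order
open Pool.Agent.helper60
open Pool.Agent.helper60.PR Pool.Agent.helper60.FcU Pool.Agent.helper60.POS

/-- Assume GCH. (a) There is a countable model `(M, E)` of ZFC and GCH such that in `(M, E)`, for
every uncountable cardinal `k`, with `l = k⁺` and `o = ω₁`, the polarized partition relation
`(k, l) → ((k, k), (l, o))^{1,1}`, that is `R_k(ℵ₁)`, fails. (b) If moreover Chang's conjecture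
`(ℵ_{ω+1}, ℵ_ω) ↠ (ℵ₁, ℵ₀)` holds, then there is a countable model of ZFC and GCH in which
`R_k(ℵ₁)` holds for `k = ℵ_ω`. -/
theorem result (hGCH : ∀ μ : Cardinal.{0}, ℵ₀ ≤ μ → 2 ^ μ = succ μ) :
    (∃ (M : Type) (E : M → M → Prop), Countable M ∧ IsZFC E ∧
      ∃ w : M, PR.Sem.IsOmega E w ∧ PR.Sem.GCH E w ∧
        ∀ k l o : M, PR.Sem.Next E w o → PR.Sem.Card E k → E w k → PR.Sem.Next E k l →
          ¬ PR.Sem.Pol E k l k k l o) ∧
    (ChangConj (ℵ_ Ordinal.omega0) ℵ₀ →
      ∃ (M : Type) (E : M → M → Prop), Countable M ∧ IsZFC E ∧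
        ∃ w o k l : M, PR.Sem.IsOmega E w ∧ PR.Sem.GCH E w ∧ PR.Sem.Next E w o ∧
          POS.Sem.IsAlephOmega E w k ∧ PR.Sem.Next E k l ∧ PR.Sem.Pol E k l k k l o) :=
  ⟨exists_model_PR hGCH, exists_model_pos hGCH⟩

end Pool.Agent.Results.MP_bc45ee_lc.Independence
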