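import Mathlib
import Pool.Agent.helper60.PR.FinalB

set_option autoImplicit false

/-!
# MP_bc45ee_lc: `R_κ(ℵ₁)` is not provable in ZFC + GCH, for any uncountable cardinal `κ`

Under GCH there is a partition of `κ × κ⁺`, for each uncountable `κ`, without homogeneous sets of
size `κ × κ⁺` in colour `0` and of size `κ × ℵ₂` in colour `1`. The model is obtained by collapsing
`ω₁` to `ω` with finite conditions: then `ℵ₂` becomes `ℵ₁`, GCH is preserved, and every homogeneous
set of the extension contains a homogeneous set of the same size of the ground model.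
-/

namespace Pool.Agent.Results.MP_bc45ee_lc.ModelWhereRelationFails

open Cardinal Order
open Pool.Agent.helper60.PR Pool.Agent.helper60.FcU

/-- Assume GCH. Then there is a countable model `(M, E)` of ZFC and GCH such that in `(M, E)`, for
every uncountable cardinal `k` (in particular for those of cofinality `ω`), with `l = k⁺` and
`o = ω₁`, the polarized partition relation `(k, l) → ((k, k), (l, o))^{1,1}`, that is
`R_k(ℵ₁)`, fails. -/
theorem result (hGCH : ∀ μ : Cardinal.{0}, ℵ₀ ≤ μ → 2 ^ μ = succ μ) :
    ∃ (M : Type) (E : M → M → Prop), Countable M ∧ IsZFC E ∧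
      ∃ w : M, Sem.IsOmega E w ∧ Sem.GCH E w ∧
        ∀ k l o : M, Sem.Next E w o → Sem.Card E k → E w k → Sem.Next E k l →
          ¬ Sem.Pol E k l k k l o :=
  exists_model_PR hGCH

end Pool.Agent.Results.MP_bc45ee_lc.ModelWhereRelationFails
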